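import Pool.Agent.H848.G.R_seed8.H341R2.EulerProd

set_option autoImplicit false

namespace Pool.Agent.H341R2

open Complex Filter Topology Polynomial

theorem path_tendsto' (ρ : ℂ) : Tendsto (fun ε : ℝ => ρ + ε) (𝓝[>] 0) (𝓝 ρ) := by
  have : ContinuousAt (fun ε : ℝ => ρ + (ε : ℂ)) 0 := by fun_prop
  have h2 := this.tendsto
  simp only [ofReal_zero, add_zero] at h2
  exact h2.mono_left nhdsWithin_le_nhds

/-- The order of a local meromorphic extension of an Euler product at a point of the edge is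
minus the mean of the (twisted, normalized) coefficients at primes. -/
theorem two_sided {Good : Nat.Primes → Prop} [DecidablePred Good]
    (hfin : {p | ¬ Good p}.Finite) (B : Nat.Primes → ℂ[X]) (ρ : ℂ)
    (hB : ∀ p, ¬ Good p → (B p).eval (((p : ℕ) : ℂ) ^ (-ρ)) ≠ 0)
    (a : Nat.Primes → ℂ) {K : ℝ} (ha : ∀ p, ‖a p‖ ≤ K) (ha0 : ∀ p, ¬ Good p → a p = 0)
    (G : ℝ → Nat.Primes → ℂ) {C : ℝ}
    (hG : ∀ ε : ℝ, 0 < ε → ∀ p, Good p →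
      ‖G ε p - a p * ((p : ℝ) ^ (-(1 + ε)) : ℝ)‖ ≤ C * (p : ℝ) ^ (-2 : ℝ))
    {Λ : ℂ → ℂ} (hΛ : MeromorphicAt Λ ρ)
    (hΛL : ∀ᶠ ε : ℝ in 𝓝[>] 0, Λ (ρ + ε) = ∏' p : Nat.Primes, if Good p then cexp (G ε p) else
      ((B p).eval (((p : ℕ) : ℂ) ^ (-(ρ + ε))))⁻¹) :
    ∃ m : ℤ, meromorphicOrderAt Λ ρ = m ∧
      ∃ C' : ℝ, ∀ᶠ ε : ℝ in 𝓝[>] 0, |(E ε fun p => (a p).re) + m * lam ε| ≤ C' := by
  classical
  set S := hfin.toFinset with hS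
  have hBcont : ∀ p : Nat.Primes, ContinuousAt (fun s : ℂ => (B p).eval (((p : ℕ) : ℂ) ^ (-s))) ρ := by
    intro p
    have hpc : ((p : ℕ) : ℂ) ≠ 0 := by exact_mod_cast p.2.ne_zero
    have h2 : ContinuousAt (fun s : ℂ => ((p : ℕ) : ℂ) ^ (-s)) ρ :=
      (continuousAt_const_cpow hpc).comp continuousAt_neg
    exact (B p).continuous.continuousAt.comp h2
  have hBlog : ∀ p, ¬ Good p → ∃ Cp : ℝ, ∀ᶠ ε : ℝ in 𝓝[>] 0,
      (B p).eval (((p : ℕ) : ℂ) ^ (-(ρ + ε))) ≠ 0 ∧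
      |Real.log ‖(B p).eval (((p : ℕ) : ℂ) ^ (-(ρ + ε)))‖| ≤ Cp := by
    intro p hp
    have h1 : Tendsto (fun ε : ℝ => (B p).eval (((p : ℕ) : ℂ) ^ (-(ρ + ε)))) (𝓝[>] 0)
        (𝓝 ((B p).eval (((p : ℕ) : ℂ) ^ (-ρ)))) := (hBcont p).tendsto.comp (path_tendsto' ρ)
    have h2 := (h1.norm.log (norm_ne_zero_iff.2 (hB p hp))).abs.isBoundedUnder_le
    obtain ⟨Cp, hCp⟩ := h2
    refine ⟨Cp, ?_⟩
    filter_upwards [h1.eventually_ne (hB p hp), Filter.eventually_map.1 hCp] with ε h3 h4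
    exact ⟨h3, h4⟩
  have hBlog' : ∀ p, ∃ Cp : ℝ, ¬ Good p → ∀ᶠ ε : ℝ in 𝓝[>] 0,
      (B p).eval (((p : ℕ) : ℂ) ^ (-(ρ + ε))) ≠ 0 ∧
      |Real.log ‖(B p).eval (((p : ℕ) : ℂ) ^ (-(ρ + ε)))‖| ≤ Cp := by
    intro p
    by_cases hp : Good p
    · exact ⟨0, fun h => absurd hp h⟩
    · obtain ⟨Cp, hCp⟩ := hBlog p hp
      exact ⟨Cp, fun _ => hCp⟩
  choose Cb hCb using hBlog'
  have hbd : ∀ᶠ ε : ℝ in 𝓝[>] 0, ∀ p ∈ S,
      (B p).eval (((p : ℕ) : ℂ) ^ (-(ρ + ε))) ≠ 0 ∧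
      |Real.log ‖(B p).eval (((p : ℕ) : ℂ) ^ (-(ρ + ε)))‖| ≤ Cb p := by
    rw [Filter.eventually_all_finset]
    exact fun p hp => hCb p (hfin.mem_toFinset.1 hp)
  have hmain : ∀ᶠ ε : ℝ in 𝓝[>] 0, Λ (ρ + ε) ≠ 0 ∧
      |(E ε fun p => (a p).re) - Real.log ‖Λ (ρ + ε)‖| ≤ (∑ p ∈ S, Cb p) + |C| * K2 := by
    filter_upwards [hbd, hΛL, self_mem_nhdsWithin] with ε h1 h2 h3
    have hε : (0 : ℝ) < ε := h3
    obtain ⟨hsum, hbd2⟩ := summable_and_bound hε (G ε) a ha ha0 (hG ε hε)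
    have h4 := tprod_split hfin (G ε)
      (fun p => ((B p).eval (((p : ℕ) : ℂ) ^ (-(ρ + ε))))⁻¹) hsum
    rw [h4] at h2
    have hprod : 0 < ∏ p ∈ S, ‖(B p).eval (((p : ℕ) : ℂ) ^ (-(ρ + ε)))‖⁻¹ :=
      Finset.prod_pos fun p hp => inv_pos.2 (norm_pos_iff.2 (h1 p hp).1)
    have hnorm : ‖Λ (ρ + ε)‖ = (∏ p ∈ S, ‖(B p).eval (((p : ℕ) : ℂ) ^ (-(ρ + ε)))‖⁻¹) *
        Real.exp (∑' p, if Good p then G ε p else 0).re := by
      rw [h2, norm_mul, Complex.norm_exp, norm_prod]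
      simp only [norm_inv, hS]
    have hpos : 0 < ‖Λ (ρ + ε)‖ := by
      rw [hnorm]
      exact mul_pos hprod (Real.exp_pos _)
    refine ⟨norm_pos_iff.1 hpos, ?_⟩
    have hlog : Real.log ‖Λ (ρ + ε)‖ = (∑ p ∈ S,
        -Real.log ‖(B p).eval (((p : ℕ) : ℂ) ^ (-(ρ + ε)))‖) +
          (∑' p, if Good p then G ε p else 0).re := by
      rw [hnorm, Real.log_mul hprod.ne' (Real.exp_pos _).ne', Real.log_exp, Real.log_prod]
      · congr 1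
        exact Finset.sum_congr rfl fun p _ => Real.log_inv _
      · intro p hp
        exact inv_ne_zero (norm_ne_zero_iff.2 (h1 p hp).1)
    have hC : |∑ p ∈ S, -Real.log ‖(B p).eval (((p : ℕ) : ℂ) ^ (-(ρ + ε)))‖| ≤
        ∑ p ∈ S, Cb p := by
      refine (Finset.abs_sum_le_sum_abs _ _).trans (Finset.sum_le_sum fun p hp => ?_)
      rw [abs_neg]
      exact (h1 p hp).2
    rw [hlog]
    have h5 : (E ε fun p => (a p).re) - ((∑ p ∈ S,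
        -Real.log ‖(B p).eval (((p : ℕ) : ℂ) ^ (-(ρ + ε)))‖) +
          (∑' p, if Good p then G ε p else 0).re) =
        -(∑ p ∈ S, -Real.log ‖(B p).eval (((p : ℕ) : ℂ) ^ (-(ρ + ε)))‖) +
          -((∑' p, if Good p then G ε p else 0).re - (E ε fun p => (a p).re)) := by ring
    rw [h5]
    refine (abs_add_le _ _).trans (add_le_add ?_ ?_)
    · rwa [abs_neg]
    · rwa [abs_neg]
  have hfreq : ∃ᶠ z in 𝓝[≠] ρ, Λ z ≠ 0 := by
    have hpath : Tendsto (fun ε : ℝ => ρ + ε) (𝓝[>] 0) (𝓝[≠] ρ) := by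
      rw [tendsto_nhdsWithin_iff]
      refine ⟨path_tendsto' ρ, ?_⟩
      filter_upwards [self_mem_nhdsWithin] with ε hε
      have hε' : (0 : ℝ) < ε := hε
      simp only [Set.mem_compl_iff, Set.mem_singleton_iff, add_eq_left]
      exact_mod_cast hε'.ne'
    exact hpath.frequently (hmain.mono fun _ h => h.1).frequently
  have hnt : meromorphicOrderAt Λ ρ ≠ ⊤ := by
    rw [Ne, meromorphicOrderAt_eq_top_iff]
    intro h
    exact hfreq (h.mono fun z hz => not_not.2 hz)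
  obtain ⟨m, hm⟩ := WithTop.ne_top_iff_exists.1 hnt
  refine ⟨m, hm.symm, ?_⟩
  obtain ⟨C₂, hC₂⟩ := log_norm_meromorphic hΛ hm.symm
  obtain ⟨C₃, hC₃⟩ := lam_bounded
  refine ⟨(∑ p ∈ S, Cb p) + |C| * K2 + C₂ + |(m : ℝ)| * C₃, ?_⟩
  filter_upwards [hmain, hC₂, hC₃] with ε h1 h2 h3
  have h4 : (E ε fun p => (a p).re) + m * lam ε =
      ((E ε fun p => (a p).re) - Real.log ‖Λ (ρ + ε)‖) +
      (Real.log ‖Λ (ρ + ε)‖ - m * Real.log ε) + m * (lam ε + Real.log ε) := by ring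
  rw [h4]
  refine (abs_add_le _ _).trans (add_le_add ((abs_add_le _ _).trans (add_le_add h1.2 h2.2)) ?_)
  rw [abs_mul]
  exact mul_le_mul_of_nonneg_left h3 (abs_nonneg _)

end Pool.Agent.H341R2
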